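import Pool.Agent.MP_36f78e_lc.H24N.L1
import Pool.Agent.MP_36f78e_lc.H24N.Big2a

/-! An approximate projector of small Pauli norm for a unique gapped ground state. -/

namespace Pool.Agent.MP_36f78e_lc.H24G

open Matrix Finset H46 H24N Polynomial
open scoped ComplexOrder MatrixOrder

variable {ι : Type} [Fintype ι] [DecidableEq ι]

theorem l1_cheb {Λ : ℝ} {A : Op ι} (h : L1 Λ A) (n : ℕ) :
    L1 ((2 * Λ + 1) ^ n) (aeval A (Chebyshev.T ℝ n)) := by
  have h0 : 0 ≤ Λ := L1.nonneg h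
  induction n using Nat.twoStepInduction with
  | zero => simpa using L1.one
  | one =>
    have h' : L1 (2 * Λ + 1) A := L1.mono h (by linarith)
    simpa using h'
  | more n ih ih' =>
    have e : aeval A (Chebyshev.T ℝ (n + 2 : ℕ)) =
        (2 : ℂ) • (A * aeval A (Chebyshev.T ℝ (n + 1 : ℕ))) +
          (-1 : ℂ) • aeval A (Chebyshev.T ℝ n) := by
      push_cast
      rw [Chebyshev.T_add_two, map_sub, map_mul, map_mul, aeval_X, map_ofNat, two_mul, add_mul,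
        two_smul, neg_one_smul, sub_eq_add_neg]
    rw [e]
    refine L1.mono (((h.mul ih').smul 2).add (ih.smul (-1))) ?_
    have h1 : (2 * Λ + 1) ^ n ≤ (2 * Λ + 1) ^ (n + 1) := pow_le_pow_right₀ (by linarith) (by omega)
    rw [pow_succ' _ (n + 1), norm_neg, norm_one, Complex.norm_two]
    linarith

theorem base {N s m : ℕ} {Δ : ℝ} (g : Fin N → Op ι) (T : Fin N → Finset ι) (φ : St ι)
    (hN : 0 < N) (hΔ : 0 < Δ) (hΔ1 : Δ ≤ 1) (hQ : ∀ i, Proj (g i))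
    (hT : ∀ i, Loc (T i) (g i)) (hTs : ∀ i, (T i).card ≤ s) (hk : ∀ i, g i *ᵥ φ = 0)
    (hφ : nsq φ = 1) (gap : ∀ v, Δ * (nsq v - ‖star φ ⬝ᵥ v‖ ^ 2) ≤ ∑ i, qf (g i) v)
    (hm : (N : ℝ) ≤ 2 * Δ * (m : ℝ) ^ 2) :
    ∃ K : Op ι, L1 ((16 * 4 ^ s) ^ m) K ∧ L1.Ok K φ := by
  classical
  obtain ⟨Pr, hP, -, ap, ds⟩ := Big2.line hφ
  have hM1 : (1 : ℝ) ≤ N := by exact_mod_cast hN
  have hM0 : (0 : ℝ) < N := by linarith
  have hm0 : m ≠ 0 := by
    rintro rfl
    simp at hm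
    omega
  obtain ⟨q, hq⟩ : ∃ q : ℝ, q = 4 ^ s := ⟨_, rfl⟩
  rw [← hq]
  have hq1 : 1 ≤ q := hq ▸ one_le_pow₀ (by norm_num)
  obtain ⟨t, ht⟩ : ∃ t, t = (Chebyshev.T ℝ m).eval (1 + 2 * Δ / N) := ⟨_, rfl⟩
  have ht2 : 2 ≤ t := by
    have h := (Cheb.T_ge (2 * Δ / N) (by positivity) m).1
    have h' : 1 ≤ (m : ℝ) ^ 2 * (2 * Δ / N) := by
      rw [← mul_div_assoc, le_div_iff₀ hM0]
      linarith
    linarith
  have ht0 : 0 < t := by linarith
  have h5 : 0 ≤ 2 / t := by positivity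
  have h6 : 2 / t ≤ 1 := (div_le_one ht0).2 ht2
  obtain ⟨P, hPe⟩ : ∃ P : ℝ[X], P = C 2 - C (2 / t) * (Chebyshev.T ℝ m).comp
    (C (-2 / (N : ℝ)) * X + C (1 + 2 * Δ / N)) := ⟨_, rfl⟩
  have hP0 : P.eval 0 = 0 := by
    simp only [hPe, eval_sub, eval_mul, eval_C, eval_comp, eval_add, eval_X, mul_zero, zero_add,
      ← ht]
    rw [div_mul_cancel₀ _ ht0.ne', sub_self]
  have hP1 : ∀ x : ℝ, Δ ≤ x → x ≤ N → 1 ≤ P.eval x ∧ P.eval x ≤ 3 := fun x h1 hx => by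
    simp only [hPe, eval_sub, eval_mul, eval_C, eval_comp, eval_add, eval_X]
    have h3 : |-2 / (N : ℝ) * x + (1 + 2 * Δ / N)| ≤ 1 := by
      have e : -2 / (N : ℝ) * x + (1 + 2 * Δ / N) = 1 - 2 * (x - Δ) / N := by ring
      have h4 : 0 ≤ 2 * (x - Δ) / N := div_nonneg (by linarith) hM0.le
      have h5 : 2 * (x - Δ) / N ≤ 2 := by
        rw [div_le_iff₀ hM0]
        linarith
      rw [e, abs_le]
      constructor <;> linarith
    have h4 := abs_le.1 (Chebyshev.abs_eval_T_real_le_one m h3)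
    constructor <;> nlinarith [h4.1, h4.2]
  obtain ⟨G, hG⟩ : ∃ G : Op ι, G = ∑ i, g i := ⟨_, rfl⟩
  have hG0 : G.PosSemidef := hG ▸ posSemidef_sum _ fun i _ => Cheb.proj_psd (hQ i)
  have hs : IsSelfAdjoint G := hG0.1
  have hGH : Gᴴ = G := hG0.1
  have hGφ : G *ᵥ φ = 0 := by
    rw [hG, sum_mulVec]
    exact sum_eq_zero fun i _ => hk i
  have gap' : ∀ v, Δ * (nsq v - ‖star φ ⬝ᵥ v‖ ^ 2) ≤ qf G v := fun v => by
    rw [hG, qf_sum]
    exact gap v
  have hcont : ∀ f : ℝ → ℝ, ContinuousOn f (spectrum ℝ G) := fun f =>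
    G.finite_real_spectrum.continuousOn f
  have key : ∀ q : ℝ[X], (aeval G q).PosSemidef ↔ ∀ x ∈ spectrum ℝ G, 0 ≤ q.eval x := fun q => by
    rw [← nonneg_iff_posSemidef, ← cfc_polynomial q G hs, cfc_nonneg_iff _ G (hcont _) hs]
  have hgap : (G - (Δ : ℂ) • (1 - Pr)).PosSemidef := by
    have hh : (G - (Δ : ℂ) • (1 - Pr)).IsHermitian := by
      simp [IsHermitian, conjTranspose_smul, hGH, hP.1]
    refine PosSemidef.of_dotProduct_mulVec_nonneg hh fun v =>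
      Complex.nonneg_iff.2 ⟨?_, (hh.im_star_dotProduct_mulVec_self v).symm⟩
    have h1 := gap' v
    have h2 : star v ⬝ᵥ (Pr *ᵥ v) = ((‖star φ ⬝ᵥ v‖ ^ 2 : ℝ) : ℂ) := by
      rw [ap, dotProduct_smul, smul_eq_mul, star_dotProduct v φ, Complex.star_def,
        Complex.mul_conj', Complex.ofReal_pow]
    rw [sub_mulVec, smul_mulVec, sub_mulVec, one_mulVec, dotProduct_sub, dotProduct_smul,
      dotProduct_sub, h2, Complex.sub_re, smul_eq_mul, Complex.re_ofReal_mul, Complex.sub_re,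
      Cheb.dot_self, Complex.ofReal_re]
    exact sub_nonneg.2 h1
  have hGP : G * Pr = 0 := by
    refine ext_iff_mulVec.2 fun u => ?_
    rw [← mulVec_mulVec, ap, mulVec_smul, hGφ, smul_zero, zero_mulVec]
  have hsp : ∀ x ∈ spectrum ℝ G, x = 0 ∨ (Δ ≤ x ∧ x ≤ N) := by
    intro x hx
    have a2 := (key (C (N : ℝ) - X)).1 (by
      have e : aeval G (C (N : ℝ) - X) = ∑ i, (1 - g i) := by
        simp [hG, sum_sub_distrib]
      rw [e]
      refine posSemidef_sum _ fun i _ => Cheb.proj_psd ⟨by simp [(hQ i).1], ?_⟩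
      simp [mul_sub, sub_mul, (hQ i).2]) x hx
    have a3 := (key (X * X * X - C Δ * (X * X))).1 (by
      have e : aeval G (X * X * X - C Δ * (X * X) : ℝ[X]) =
          Gᴴ * (G - (Δ : ℂ) • (1 - Pr)) * G := by
        rw [hGH, mul_sub, Matrix.mul_smul, mul_sub, hGP, mul_one, sub_zero, sub_mul,
          Matrix.smul_mul, map_sub, map_mul, map_mul, map_mul, map_mul, aeval_X, aeval_C,
          Algebra.algebraMap_eq_smul_one, smul_mul_assoc, one_mul, Complex.coe_smul]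
      rw [e]
      exact hgap.conjTranspose_mul_mul_same G) x hx
    simp only [eval_sub, eval_mul, eval_X, eval_C] at a2 a3
    by_cases h : x = 0
    · exact Or.inl h
    · have h1 : 0 < x * x := mul_self_pos.2 h
      exact Or.inr ⟨by nlinarith, by linarith⟩
  have hK0 : (aeval G P).PosSemidef := (key P).2 fun x hx => by
    rcases hsp x hx with rfl | h
    · exact hP0.ge
    · linarith [(hP1 x h.1 h.2).1]
  have hK3 : (aeval G (C 3 - P)).PosSemidef := (key _).2 fun x hx => by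
    rw [eval_sub, eval_C]
    rcases hsp x hx with rfl | h
    · rw [hP0]; norm_num
    · linarith [(hP1 x h.1 h.2).2]
  have hkill : ∀ v, G *ᵥ v = 0 → aeval G P *ᵥ v = 0 := by
    intro v h
    obtain ⟨P', rfl⟩ := X_dvd_iff.2 ((coeff_zero_eq_eval_zero P).trans hP0)
    rw [mul_comm, map_mul, aeval_X, ← mulVec_mulVec, h, mulVec_zero]
  refine ⟨aeval G P, ?_, hφ, hK0, fun v => ?_, hkill φ hGφ, fun v => ?_⟩
  · have h1 : ∀ i, L1 q (1 - (2 : ℂ) • g i) := fun i => by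
      refine (L1.loc ((Loc.one _).sub ((hT i).smul 2)) ?_).mono
        (hq ▸ pow_le_pow_right₀ (by norm_num) (hTs i))
      rw [mem_unitaryGroup_iff, star_eq_conjTranspose, conjTranspose_sub, conjTranspose_one,
        conjTranspose_smul, (hQ i).1, sub_mul, mul_sub, mul_sub, Matrix.smul_mul, Matrix.smul_mul,
        Matrix.mul_smul, Matrix.mul_smul, (hQ i).2]
      simp only [one_mul, mul_one, star_ofNat]
      module
    have h2 : L1 (3 * q) (aeval G (C (-2 / (N : ℝ)) * X + C (1 + 2 * Δ / N))) := by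
      have e : aeval G (C (-2 / (N : ℝ)) * X + C (1 + 2 * Δ / N)) =
          ((2 * Δ / N : ℝ) : ℂ) • (1 : Op ι) +
            ((1 / N : ℝ) : ℂ) • ∑ i, (1 - (2 : ℂ) • g i) := by
        have hc : (N : ℂ) ≠ 0 := by exact_mod_cast hN.ne'
        rw [sum_sub_distrib, ← smul_sum, ← hG, sum_const, card_univ, Fintype.card_fin, map_add,
          map_mul, aeval_X, aeval_C, aeval_C, Algebra.algebraMap_eq_smul_one,
          Algebra.algebraMap_eq_smul_one, smul_mul_assoc, one_mul, ← Complex.coe_smul,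
          ← Complex.coe_smul, ← Nat.cast_smul_eq_nsmul ℂ]
        push_cast
        match_scalars <;> (field_simp; try ring)
      rw [e]
      refine ((L1.one.smul _).add ((L1.sum univ (l := fun _ => q) fun i _ => h1 i).smul _)).mono ?_
      rw [Complex.norm_real, Complex.norm_real, Real.norm_of_nonneg (by positivity),
        Real.norm_of_nonneg (by positivity), sum_const, card_univ, Fintype.card_fin, nsmul_eq_mul,
        ← mul_assoc, one_div_mul_cancel hM0.ne']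
      have : 2 * Δ / N ≤ 2 := by
        rw [div_le_iff₀ hM0]
        linarith
      linarith
    have e : aeval G P = (2 : ℂ) • (1 : Op ι) + ((-(2 / t) : ℝ) : ℂ) •
        aeval (aeval G (C (-2 / (N : ℝ)) * X + C (1 + 2 * Δ / N))) (Chebyshev.T ℝ m) := by
      rw [hPe, map_sub, map_mul, aeval_comp, aeval_C, aeval_C, Algebra.algebraMap_eq_smul_one,
        Algebra.algebraMap_eq_smul_one, smul_mul_assoc, one_mul, Complex.coe_smul, neg_smul,
        two_smul, two_smul, sub_eq_add_neg]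
    rw [e]
    refine ((L1.one.smul 2).add ((l1_cheb h2 m).smul _)).mono ?_
    rw [Complex.norm_two, Complex.norm_real, norm_neg, Real.norm_of_nonneg h5]
    have a1 : (2 * (3 * q) + 1) ^ m ≤ (7 * q) ^ m := pow_le_pow_left₀ (by positivity) (by linarith) m
    have a2 : 9 * q ≤ (9 * q) ^ m := le_self_pow₀ (by linarith) hm0
    have a3 : (9 * q) ^ m + (7 * q) ^ m ≤ (9 * q + 7 * q) ^ m :=
      pow_add_pow_le (by positivity) (by positivity) hm0
    have a4 : 2 / t * (2 * (3 * q) + 1) ^ m ≤ (2 * (3 * q) + 1) ^ m :=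
      mul_le_of_le_one_left (by positivity) h6
    rw [show 9 * q + 7 * q = 16 * q by ring] at a3
    linarith
  · have h := qf_nonneg hK3 v
    rw [map_sub, aeval_C, Algebra.algebraMap_eq_smul_one, qf, sub_mulVec, smul_mulVec, one_mulVec,
      dotProduct_sub, dotProduct_smul, Complex.sub_re, Complex.smul_re, Cheb.dot_self,
      smul_eq_mul] at h
    exact sub_nonneg.1 h
  · obtain ⟨E, hE⟩ : ∃ E : Op ι, E = cfc (fun x : ℝ => if x = 0 then (1 : ℝ) else 0) G := ⟨_, rfl⟩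
    have hEs : Eᴴ = E := hE ▸ (cfc_predicate _ G : IsSelfAdjoint _)
    have hGE : G * E = 0 := by
      have h := cfc_mul (fun x : ℝ => x) (fun x : ℝ => if x = 0 then (1 : ℝ) else 0) G (hcont _)
        (hcont _)
      rw [cfc_id' ℝ G hs] at h
      rw [hE, ← h, ← cfc_const_zero ℝ G]
      exact cfc_congr fun x _ => by by_cases hx : x = 0 <;> simp [hx]
    have hPE : Pr * E = E := by
      refine ext_iff_mulVec.2 fun u => ?_
      rw [← mulVec_mulVec]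
      have h1 := gap' (E *ᵥ u)
      rw [← ds, Cheb.qf_zero (by rw [mulVec_mulVec, hGE, zero_mulVec])] at h1
      have h2 := nsq_nonneg (E *ᵥ u - Pr *ᵥ (E *ᵥ u))
      exact (sub_eq_zero.1 (nsq_eq_zero.1 (by nlinarith))).symm
    have hEP : E * Pr = E := by
      have h := congrArg conjTranspose hPE
      rwa [conjTranspose_mul, hEs, hP.1] at h
    have hEu : E *ᵥ (v - Pr *ᵥ v) = 0 := by rw [mulVec_sub, mulVec_mulVec, hEP, sub_self]
    have hge : (aeval G (P - C 1) + E).PosSemidef := by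
      rw [← nonneg_iff_posSemidef, ← cfc_polynomial _ G hs, hE,
        ← cfc_add G _ _ (hcont _) (hcont _)]
      refine cfc_nonneg fun x hx => ?_
      rw [eval_sub, eval_C]
      rcases hsp x hx with rfl | h
      · simp [hP0]
      · rw [if_neg (by linarith [h.1])]
        linarith [(hP1 x h.1 h.2).1]
    have h := qf_nonneg hge (v - Pr *ᵥ v)
    rw [map_sub, aeval_C, map_one, qf, add_mulVec, hEu, add_zero, sub_mulVec, one_mulVec,
      dotProduct_sub, Complex.sub_re, Cheb.dot_self] at h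
    have h' := Cheb.qf_add_ker hK0.1 (hkill (Pr *ᵥ v)
      (by rw [mulVec_mulVec, hGP, zero_mulVec])) (v - Pr *ᵥ v)
    rw [sub_add_cancel] at h'
    rw [h', ← ds]
    exact sub_nonneg.1 h

theorem l1 {N s m t : ℕ} {Δ : ℝ} (g : Fin N → Op ι) (T : Fin N → Finset ι) (φ ψ : St ι)
    (hN : 0 < N) (hΔ : 0 < Δ) (hΔ1 : Δ ≤ 1) (hQ : ∀ i, Proj (g i))
    (hT : ∀ i, Loc (T i) (g i)) (hTs : ∀ i, (T i).card ≤ s) (hk : ∀ i, g i *ᵥ φ = 0)
    (hφ : nsq φ = 1) (gap : ∀ v, Δ * (nsq v - ‖star φ ⬝ᵥ v‖ ^ 2) ≤ ∑ i, qf (g i) v)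
    (hm : (N : ℝ) ≤ 2 * Δ * (m : ℝ) ^ 2) (hψ : From φ t ψ) :
    ∃ K : Op ι, L1 (16 ^ t * (16 * 4 ^ s) ^ m) K ∧ L1.Ok K ψ := by
  induction hψ with
  | base => simpa using base g T φ hN hΔ hΔ1 hQ hT hTs hk hφ gap hm
  | cliff V hV _ ih =>
    obtain ⟨K, h1, h2⟩ := ih
    exact ⟨_, L1.cliff hV h1, h2.conj hV.1⟩
  | gate S V hV hS _ ih =>
    obtain ⟨K, h1, h2⟩ := ih
    refine ⟨_, (L1.gate hV hS.loc h1).mono (le_of_eq ?_), h2.conj hV⟩
    ring

theorem expo {t s N : ℕ} {ρ n Δ : ℝ} (h0 : 0 ≤ ρ) (h1 : ρ ≤ 1) (hn : 0 ≤ n) (hN : 0 < N)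
    (hs : 0 < s) (hΔ : 0 < Δ) (hΔ1 : Δ ≤ 1) (h2 : (N : ℝ) * (s : ℝ) ^ 2 ≤ ρ ^ 2 * Δ * n ^ 2)
    (h3 : (t : ℝ) ≤ ρ ^ 2 * n) : ∃ m : ℕ, (N : ℝ) ≤ 2 * Δ * (m : ℝ) ^ 2 ∧
      (16 : ℝ) ^ t * (16 * 4 ^ s) ^ m ≤ Real.exp (16 * ρ * n) := by
  obtain ⟨r, hr⟩ : ∃ r, r = Real.sqrt (N / Δ) := ⟨_, rfl⟩
  have hN1 : (1 : ℝ) ≤ N := by exact_mod_cast hN
  have hs1 : (1 : ℝ) ≤ s := by exact_mod_cast hs
  have hr2 : r ^ 2 * Δ = N := by
    rw [hr, Real.sq_sqrt (by positivity), div_mul_cancel₀ _ hΔ.ne']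
  have hr1 : 1 ≤ r := hr ▸ Real.one_le_sqrt.2 ((one_le_div hΔ).2 (by linarith))
  have m1 : r ≤ (⌈r⌉₊ : ℝ) := Nat.le_ceil r
  have m2 : (⌈r⌉₊ : ℝ) ≤ 2 * r := by linarith [Nat.ceil_lt_add_one (by linarith : 0 ≤ r)]
  have h4 : r * s ≤ ρ * n := by
    refine (abs_le_of_sq_le_sq' ?_ (by positivity)).2
    refine le_of_mul_le_mul_right ?_ hΔ
    rw [mul_pow, mul_pow, mul_right_comm, hr2]
    linarith
  refine ⟨⌈r⌉₊, ?_, ?_⟩
  · have := pow_le_pow_left₀ (by linarith) m1 2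
    nlinarith [sq_nonneg r]
  obtain ⟨m, hm⟩ : ∃ m, m = ⌈r⌉₊ := ⟨_, rfl⟩
  rw [← hm] at m1 m2 ⊢
  have h5 : (16 : ℝ) ^ t * (16 * 4 ^ s) ^ m = 2 ^ (4 * t + (4 + 2 * s) * m) := by
    rw [pow_add 2, pow_mul 2 4 t, pow_mul 2 _ m, pow_add 2 4, pow_mul 2 2]
    norm_num
  have h6 : (2 : ℝ) ≤ Real.exp 1 := by linarith [Real.add_one_le_exp 1]
  rw [h5]
  refine (pow_le_pow_left₀ zero_le_two h6 _).trans ?_
  rw [← Real.exp_nat_mul, mul_one, Real.exp_le_exp]
  push_cast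
  have h7 : ρ ^ 2 * n ≤ ρ * n := mul_le_mul_of_nonneg_right (by nlinarith) hn
  have h8 : (4 + 2 * (s : ℝ)) * m ≤ 6 * s * (2 * r) :=
    mul_le_mul (by linarith) m2 (by positivity) (by positivity)
  nlinarith

end Pool.Agent.MP_36f78e_lc.H24G
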