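import Pool.Agent.MP_36f78e_lc.H24N.Main
import Pool.Agent.MP_36f78e_lc.H24G.Gap

/-! The assembly of both orders and of the case of unique gapped ground states. -/

set_option linter.unusedSectionVars false

namespace Pool.Agent.MP_36f78e_lc.H24G

open Matrix Finset H46
open H24N hiding expo l1 main
open scoped ComplexOrder Kronecker

/-- The main statement from the steps. -/
theorem main3 (hCode : Code2Stmt) (hF : FourStmt) (hB : BigStmt) (hPrep : PrepStmt)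
    (hCone : ConeStmt) (hComp : CompStmt) (hStab : StabStmt) (hL1 : L1Stmt) (hEnc : EncStmt)
    (hB2 : Big2Stmt) :
    ∃ (k : ℕ) (ε c : ℝ), 0 < ε ∧ 0 < c ∧ ∀ n₀ : ℕ, ∃ n : ℕ, n₀ ≤ n ∧
      ∃ (M : ℕ) (h : Fin M → Op (Fin n)) (S : Fin M → Finset (Fin n)), M ≤ n ∧
        (∀ j, (S j).card ≤ k ∧ ActsOn (S j) (h j) ∧ (h j).PosSemidef ∧ (1 - h j).PosSemidef) ∧
        (∀ q, (Finset.univ.filter fun j => q ∈ S j).card ≤ k) ∧
        (∃ ψ₀ : St (Fin n), ψ₀ ≠ 0 ∧ ∀ j, h j *ᵥ ψ₀ = 0) ∧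
        (∀ (a t d : ℕ) (ψ : St (Fin n ⊕ Fin a)) (U : Op (Fin n ⊕ Fin a)), Prep t ψ →
          HasDepth d U → (16 : ℝ) ^ d ≤ c * n → (4 : ℝ) ^ d * t ≤ c * n →
          ε * n ≤ ∑ j, (star (U *ᵥ ψ) ⬝ᵥ (withAnc (Fin a) (h j) *ᵥ (U *ᵥ ψ))).re) ∧
        (∀ (a t d : ℕ) (ψ : St (Fin n ⊕ Fin a)) (U : Op (Fin n ⊕ Fin a)), HasDepth d U →
          From (U *ᵥ Pi.single 0 1) t ψ → ((n : ℝ) + a) * 4 ^ d ≤ c * n ^ 2 → (t : ℝ) ≤ c * n →
          ε * n ≤ ∑ j, (star ψ ⬝ᵥ (withAnc (Fin a) (h j) *ᵥ ψ)).re) ∧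
        ∀ (a t N s : ℕ) (Δ : ℝ) (g : Fin N → Op (Fin n ⊕ Fin a))
          (T : Fin N → Finset (Fin n ⊕ Fin a)) (φ ψ : St (Fin n ⊕ Fin a)),
          0 < N → 0 < s → 0 < Δ → Δ ≤ 1 → (∀ i, Proj (g i)) → (∀ i, Loc (T i) (g i)) →
          (∀ i, (T i).card ≤ s) → (∀ i, g i *ᵥ φ = 0) → nsq φ = 1 →
          (∀ v, Δ * (nsq v - ‖star φ ⬝ᵥ v‖ ^ 2) ≤ ∑ i, qf (g i) v) → From φ t ψ →
          (N : ℝ) * (s : ℝ) ^ 2 ≤ c * Δ * n ^ 2 → (t : ℝ) ≤ c * n →
          ε * n ≤ ∑ j, (star ψ ⬝ᵥ (withAnc (Fin a) (h j) *ᵥ ψ)).re := by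
  classical
  obtain ⟨p, _, k, γ, hp, hγ, hCode⟩ := hCode
  obtain ⟨δ, ε₂, n₂, hδ, hε₂, hen⟩ := energy2 hEnc hB2 p hp k γ hγ
  obtain ⟨m, hm1, hm2⟩ : ∃ m, p ≤ 2 ^ m ∧ 2 ^ m < 2 * p := by
    refine ⟨Nat.clog 2 p, Nat.le_pow_clog one_lt_two p, ?_⟩
    have h1 := Nat.pow_pred_clog_lt_self one_lt_two (by omega : 1 < p)
    have h2 := Nat.clog_pos one_lt_two (by omega : 1 < p)
    obtain ⟨r, hr⟩ : ∃ r, Nat.clog 2 p = r + 1 := ⟨Nat.clog 2 p - 1, by omega⟩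
    rw [hr, Nat.pred_succ] at h1
    rw [hr, pow_succ]
    omega
  have hm : 2 ≤ m := by
    by_contra h
    have : 2 ^ m ≤ 2 ^ 1 := Nat.pow_le_pow_right two_pos (by omega)
    omega
  obtain ⟨K, hK⟩ : ∃ K, K = 2 * k * m + 1 := ⟨_, rfl⟩
  have hp0 : (0 : ℝ) < m := by exact_mod_cast (by omega : 0 < m)
  have hK0 : (0 : ℝ) < K := by exact_mod_cast (by omega : 0 < K)
  obtain ⟨ρ, hρ⟩ : ∃ ρ : ℝ, ρ = min 1 (δ / (16 * m)) := ⟨_, rfl⟩
  have hρ0 : 0 < ρ := hρ ▸ lt_min one_pos (by positivity)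
  have hρ1 : ρ ≤ 1 := hρ ▸ min_le_left _ _
  have hρ2 : 16 * ρ * m ≤ δ := by
    have : ρ ≤ δ / (16 * m) := hρ ▸ min_le_right _ _
    rw [le_div_iff₀ (by positivity)] at this
    linarith
  refine ⟨K, min (γ / (288 * m)) (ε₂ / m), min (min γ (γ ^ 2) / (576 * m * K ^ 2)) (ρ ^ 2),
    by positivity, by positivity, fun n₀ => ?_⟩
  obtain ⟨V, J, _, _, _, hn, hJ, C, hC, hX⟩ := hCode (n₀ + n₂ + 1)
  obtain ⟨enc⟩ : Nonempty (ZMod p ↪ (Fin m → ZMod 2)) :=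
    Function.Embedding.nonempty_of_card_le (by simpa using hm1)
  obtain ⟨e⟩ : Nonempty (V × Fin m ≃ Fin (Fintype.card V * m)) :=
    ⟨Fintype.equivFinOfCardEq (by simp)⟩
  obtain ⟨f⟩ : Nonempty (Fin (2 * Fintype.card J) ≃ Bool × J) :=
    ⟨(Fintype.equivFinOfCardEq (by simp)).symm⟩
  obtain ⟨E, hE⟩ : ∃ E : Enc p V (Fin (Fintype.card V * m)) m, E.e = e :=
    ⟨⟨enc, Function.invFun enc, e, Function.leftInverse_invFun enc.injective, e.injective⟩, rfl⟩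
  have hs : Function.Surjective E.e := hE ▸ e.surjective
  have hL : ∀ j : Bool × J, Loc (E.blocks (C.S j.1 j.2)) (E.hq (C.hm j.1 j.2)) := fun j =>
    Enc.hq_loc hs (hm_loc hF hC j.1 j.2).1 (hm_loc hF hC j.1 j.2).2
  have hS : ∀ j : Bool × J, (E.blocks (C.S j.1 j.2)).card ≤ K := fun j =>
    (Enc.card_blocks _).trans (by have := hC.card_S j.1 j.2; rw [hK]; nlinarith)
  have hdeg : ∀ q, (univ.filter fun j : Bool × J => q ∈ E.blocks (C.S j.1 j.2)).card ≤ K := by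
    intro q
    obtain ⟨⟨v, i⟩, rfl⟩ := hs q
    have h1 : (univ.filter fun j : Bool × J => E.e (v, i) ∈ E.blocks (C.S j.1 j.2)) ⊆
        (univ : Finset Bool).biUnion fun s => (univ.filter fun j => v ∈ C.S s j).image (s, ·) := by
      intro j hj
      exact mem_biUnion.2 ⟨j.1, mem_univ _, mem_image.2 ⟨j.2,
        mem_filter.2 ⟨mem_univ _, Enc.mem_blocks.1 (mem_filter.1 hj).2⟩, rfl⟩⟩
    refine (card_le_card h1).trans ((card_biUnion_le_card_mul _ _ k fun s _ =>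
      card_image_le.trans (hC.deg s v)).trans ?_)
    rw [card_univ, Fintype.card_bool, hK]
    nlinarith
  have hV0 : (0 : ℝ) ≤ Fintype.card V := by positivity
  have hn0 : (0 : ℝ) ≤ ((Fintype.card V * m : ℕ) : ℝ) := by positivity
  refine ⟨Fintype.card V * m, by nlinarith, 2 * Fintype.card J,
    fun j => E.hq (C.hm (f j).1 (f j).2), fun j => E.blocks (C.S (f j).1 (f j).2), by nlinarith,
    fun j => ⟨hS _, (hL _).actsOn, Enc.hq_psd (hm_proj hF C _ _)⟩, fun q => ?_, ?_, ?_, ?_, ?_⟩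
  · refine le_trans (card_le_card_of_injOn f (fun j hj => ?_) f.injective.injOn) (hdeg q)
    simpa using hj
  · obtain ⟨g, hg, hg'⟩ := hm_ground hF hC
    obtain ⟨ψ, hψ, hψ'⟩ := Enc.hq_ground (E := E) hg
    exact ⟨ψ, hψ, fun j => hψ' _ (hg' _ _)⟩
  · intro a t d ψ U hψ hU h1 h2
    replace h1 := h1.trans (mul_le_mul_of_nonneg_right (min_le_left _ _) hn0)
    replace h2 := h2.trans (mul_le_mul_of_nonneg_right (min_le_left _ _) hn0)
    refine (mul_le_mul_of_nonneg_right (min_le_left _ _) hn0).trans ?_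
    have hc1 : min γ (γ ^ 2) ≤ γ := min_le_left _ _
    have hc2 : min γ (γ ^ 2) ≤ γ ^ 2 := min_le_right _ _
    have hcn : 576 * (K : ℝ) ^ 2 * (min γ (γ ^ 2) / (576 * m * K ^ 2) *
        ((Fintype.card V * m : ℕ) : ℝ)) = min γ (γ ^ 2) * Fintype.card V := by
      push_cast
      field_simp
    have h3 := mul_le_mul_of_nonneg_left h1 (by positivity : (0 : ℝ) ≤ 576 * (K : ℝ) ^ 2)
    have h4 := mul_le_mul_of_nonneg_left h2 (by positivity : (0 : ℝ) ≤ 576 * (K : ℝ) ^ 2)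
    rw [hcn] at h3 h4
    have h5 := mul_le_mul_of_nonneg_right hc1 hV0
    have h6 := mul_le_mul_of_nonneg_right hc2 hV0
    have h7 : (0 : ℝ) ≤ (K : ℝ) ^ 2 * 16 ^ d := by positivity
    have h := energy hB hPrep hCone hComp hStab hp hC hγ (by omega) hJ (E.anc (Fin a))
      (fun j => (E.blocks (C.S j.1 j.2)).image Sum.inl) K (by omega)
      (fun j => card_image_le.trans (hS j))
      (by
        rintro (q | q)
        · simpa using hdeg q
        · simp)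
      (fun j => Enc.withAnc_hq (E := E) (Fin a) _ ▸ (hL j).withAnc)
      (fun j => Enc.hq_psd (hm_proj hF C _ _)) hψ hU (by linarith) (by linarith)
    rw [← Equiv.sum_comp f] at h
    simp only [Enc.withAnc_hq]
    refine le_trans (le_of_eq ?_) h
    push_cast
    field_simp
  · intro a t d ψ U hU hψ h1 h2
    replace h1 := h1.trans (mul_le_mul_of_nonneg_right (min_le_right _ _) (sq_nonneg _))
    replace h2 := h2.trans (mul_le_mul_of_nonneg_right (min_le_right _ _) hn0)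
    refine (mul_le_mul_of_nonneg_right (min_le_right _ _) hn0).trans ?_
    have hN : 0 < Fintype.card (Fin (Fintype.card V * m) ⊕ Fin a) := by
      rw [Fintype.card_sum, Fintype.card_fin]
      have : 0 < Fintype.card V * m := Nat.mul_pos (by omega) (by omega)
      omega
    obtain ⟨hψ1, K', k0, k1, k2, k3, k4⟩ := hL1 _ d t
      (Nat.sqrt (Fintype.card (Fin (Fintype.card V * m) ⊕ Fin a)) + 1) U ψ hU hψ hN
      (by nlinarith [Nat.lt_succ_sqrt (Fintype.card (Fin (Fintype.card V * m) ⊕ Fin a))])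
    have h := hen V J _ m C (E.anc (Fin a)) ψ K' _ (by omega) hC hX hm2 hψ1 k0
      ((H24N.expo hρ0.le hρ1 hn0 hN (by simpa using h1) h2).trans (Real.exp_le_exp.2 (by
        push_cast
        nlinarith))) k1 k2 k3 k4
    rw [← Equiv.sum_comp f] at h
    simp only [Enc.withAnc_hq]
    refine le_trans (le_of_eq ?_) h
    push_cast
    field_simp
  · intro a t N s Δ g T φ ψ hN hs0 hΔ hΔ1 hQ hT hTs hk hφ gap hψ h1 h2
    replace h1 := h1.trans (mul_le_mul_of_nonneg_right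
      (mul_le_mul_of_nonneg_right (min_le_right _ _) hΔ.le) (sq_nonneg _))
    replace h2 := h2.trans (mul_le_mul_of_nonneg_right (min_le_right _ _) hn0)
    refine (mul_le_mul_of_nonneg_right (min_le_right _ _) hn0).trans ?_
    obtain ⟨r, r1, r2⟩ := expo hρ0.le hρ1 hn0 hN hs0 hΔ hΔ1 h1 h2
    obtain ⟨K', k0, hψ1, k1, k2, k3, k4⟩ := l1 g T φ ψ hN hΔ hΔ1 hQ hT hTs hk hφ gap r1 hψ
    have h := hen V J _ m C (E.anc (Fin a)) ψ K' _ (by omega) hC hX hm2 hψ1 k0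
      (r2.trans (Real.exp_le_exp.2 (by
        push_cast
        nlinarith))) k1 k2 k3 k4
    rw [← Equiv.sum_comp f] at h
    simp only [Enc.withAnc_hq]
    refine le_trans (le_of_eq ?_) h
    push_cast
    field_simp

end Pool.Agent.MP_36f78e_lc.H24G
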